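import Pool.Agent.Lib.EMU.F.Defs

/-!
# MP_9aab3b_gt, module F.Avg: isotypic projections for the centre

PROOF. `cen n * cen n' = cen (n + n')` (`cen_mul`), `cen` is central (`cen_comm`), `act` is multiplicative (`act_mul`).
* `isChar_chN`: `zt_pow_add`, `‖zt‖ = 1` (`zt ^ 3 = 1` or `Complex.norm_exp`). `IsChar.zero`: `c 0 = c 0 * c 0` and `c 0 ≠ 0`.
* `IsChar.conj_neg`: `c n * c (-n) = c 0 = 1` and `c n * conj (c n) = ‖c n‖ ^ 2 = 1`.
* `act_cen_avg`: `act (cen n) (avg c v) = (1/27) ∑ n', conj (c n') • act (cen (n + n')) v`; substitute `n' ↦ n' - n` (`Equiv.sum_comp (Equiv.addLeft n)`):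
  `conj (c (n' - n)) = conj (c n') * c n`.
* `avg_fix`: each term is `conj (c n) * c n • v = v`, and `Q3` has 27 elements. `avg_avg`: `avg_fix` and `act_cen_avg`.
* `avg_symm`: `⟪act (cen n) v, w⟫ = ⟪v, act (cen (-n)) w⟫` (unitary, `cen n * cen (-n) = 1`), `conj (c n)` comes out of the first argument as `c n = conj (c (-n))`; substitute
  `n ↦ -n`.
* `avg_act`: `cen n` commutes with `g`.
* `sum_chN`: `∑ n : Q3, conj (chN i n) * chN j n`: for `i = j` all terms are 1; for `i ≠ j` the sum factors (`Finset.prod_univ_sum`/`Fintype.sum_pow`, or: translate `n` by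
  `Pi.single j 1`: the sum is multiplied by `zt`, so it is `0` as `zt ≠ 1`). The same translation argument for `sum_chN_one`, `sum_chN_one'`.
* `avg_orth`: `avg c v = (1/27) (∑ n, conj (c n) * c' n) • v = 0`.
* `rank_trace`: an idempotent is a projection onto its range (`LinearMap.IsProj`, `LinearMap.IsProj.trace`; or `LinearMap.IsIdempotentElem...`).
* `trace_rk`: `trace (rk a b ∘ T) = ⟪b, T a⟫`: `rk a b ∘ T` is `v ↦ ⟪b, T v⟫ • a` (`LinearMap.trace_smulRight`-like; or in the orthonormal basis `EuclideanSpace.single p 1`: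
  `LinearMap.trace_eq_sum_inner` or `Matrix.trace`).
-/

set_option autoImplicit false

open scoped Topology ComplexConjugate

namespace EMU

variable {A : Type} [Fintype A] {c c' : Q3 → ℂ}

private theorem c_ne (hc : IsChar c) (n : Q3) : c n ≠ 0 := by
  intro h
  have h1 := hc.norm n
  rw [h, norm_zero] at h1
  exact zero_ne_one h1

private theorem mul_cj {z : ℂ} (h : ‖z‖ = 1) : z * conj z = 1 := by
  rw [Complex.mul_conj, Complex.normSq_eq_norm_sq, h]
  simp

private theorem card_Q3 : Fintype.card Q3 = 27 := by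
  rw [Fintype.card_fun]
  simp [ZMod.card]

private theorem norm_zt : ‖zt‖ = 1 := by
  have h : ‖zt‖ ^ 3 = 1 := by rw [← norm_pow, zt_pow_three, norm_one]
  exact (pow_eq_one_iff_of_nonneg (norm_nonneg _) (by norm_num)).1 h

private theorem avg_apply (c : Q3 → ℂ) (v : Rg Gp A) :
    avg c v = (1 / 27 : ℂ) • ∑ n : Q3, conj (c n) • act (cen n) v := by
  unfold avg
  rw [smul_apply, sum_apply]
  rfl

theorem isChar_one : IsChar fun _ => 1 := ⟨fun _ _ => by simp, fun _ => by simp⟩

theorem isChar_chN (i : Fin 3) : IsChar (chN i) := by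
  refine ⟨fun n n' => ?_, fun n => ?_⟩
  · exact zt_pow_add (n i) (n' i)
  · unfold chN
    rw [norm_pow, norm_zt, one_pow]

theorem IsChar.zero (hc : IsChar c) : c 0 = 1 := by
  have h1 := hc.add 0 0
  rw [add_zero] at h1
  have h2 : c 0 * 1 = c 0 * c 0 := by rw [mul_one]; exact h1
  exact (mul_left_cancel₀ (c_ne hc 0) h2).symm

theorem IsChar.conj_neg (hc : IsChar c) (n : Q3) : conj (c n) = c (-n) := by
  have h1 : c n * c (-n) = 1 := by rw [← hc.add, add_neg_cancel, hc.zero]
  have h2 := mul_cj (hc.norm n)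
  exact mul_left_cancel₀ (c_ne hc n) (h2.trans h1.symm)

theorem act_cen_avg (hc : IsChar c) (n : Q3) (v : Rg Gp A) :
    act (cen n) (avg c v) = c n • avg c v := by
  rw [avg_apply, map_smul, map_sum, smul_comm]
  congr 1
  rw [← Equiv.sum_comp (Equiv.addLeft n) (fun n' => conj (c n') • act (cen n') v), Finset.smul_sum]
  refine Finset.sum_congr rfl fun n' _ => ?_
  rw [map_smul, ← act_mul, cen_mul, Equiv.coe_addLeft, smul_smul]
  congr 1
  rw [hc.add, map_mul, ← mul_assoc, mul_cj (hc.norm n), one_mul]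

theorem avg_fix (hc : IsChar c) {v : Rg Gp A} (h : ∀ n, act (cen n) v = c n • v) :
    avg c v = v := by
  rw [avg_apply]
  have h1 : ∀ n : Q3, conj (c n) • act (cen n) v = v := by
    intro n
    rw [h, smul_smul, mul_comm, mul_cj (hc.norm n), one_smul]
  simp only [h1, Finset.sum_const, Finset.card_univ, card_Q3]
  rw [← Nat.cast_smul_eq_nsmul ℂ, smul_smul]
  norm_num

theorem avg_avg (hc : IsChar c) (v : Rg Gp A) : avg c (avg c v) = avg c v :=
  avg_fix hc fun n => act_cen_avg hc n v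

private theorem act_cen_adj (n : Q3) (v w : Rg Gp A) :
    inner ℂ (act (cen n) v) w = (inner ℂ v (act (cen (-n)) w) : ℂ) := by
  have h1 : act (cen n) (act (cen (-n)) w) = w := by
    rw [← act_mul, cen_mul, add_neg_cancel]
    exact act_one w
  have h2 := (act (I := A) (cen n)).inner_map_map v (act (cen (-n)) w)
  rw [h1] at h2
  exact h2

theorem avg_symm (hc : IsChar c) (v w : Rg Gp A) :
    inner ℂ (avg c v) w = inner ℂ v (avg c w) := by
  rw [avg_apply, avg_apply, inner_smul_left, inner_smul_right, sum_inner, inner_sum]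
  have h0 : (conj (1 / 27 : ℂ) : ℂ) = 1 / 27 := by
    rw [map_div₀, map_one]
    congr 1
    exact Complex.conj_ofNat 27
  rw [h0]
  congr 1
  rw [← Equiv.sum_comp (Equiv.neg Q3)]
  refine Finset.sum_congr rfl fun n _ => ?_
  rw [inner_smul_left, inner_smul_right, act_cen_adj, Equiv.neg_apply, neg_neg, Complex.conj_conj,
    ← hc.conj_neg]

theorem avg_act (g : Gp) (v : Rg Gp A) : avg c (act g v) = act g (avg c v) := by
  rw [avg_apply, avg_apply, map_smul, map_sum]
  congr 1
  refine Finset.sum_congr rfl fun n _ => ?_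
  rw [map_smul, ← act_mul, ← act_mul, cen_comm]

private theorem sum_zero_of {f : Q3 → ℂ} (s : Q3) (z : ℂ) (hz : z ≠ 1)
    (h : ∀ n, f (n + s) = z * f n) : ∑ n, f n = 0 := by
  have h1 := Equiv.sum_comp (Equiv.addRight s) f
  simp only [Equiv.coe_addRight, h] at h1
  rw [← Finset.mul_sum] at h1
  have h2 : (z - 1) * ∑ n, f n = 0 := by rw [sub_mul, h1, one_mul, sub_self]
  rcases mul_eq_zero.1 h2 with h3 | h3
  · exact absurd (sub_eq_zero.1 h3) hz
  · exact h3

private theorem zt_ne_one : zt ≠ 1 := by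
  intro h
  have h1 : zt ^ (1 : ZMod 3).val = 1 := by rw [h, one_pow]
  have h2 := zt_pow_eq_one h1
  exact absurd h2 (by decide)

private theorem chN_add_self (i : Fin 3) (n : Q3) : chN i (n + Pi.single i 1) = zt * chN i n := by
  unfold chN
  rw [Pi.add_apply, Pi.single_eq_same, zt_pow_add, mul_comm]
  congr 1
  exact pow_one zt

private theorem chN_add_ne {i j : Fin 3} (h : i ≠ j) (n : Q3) :
    chN i (n + Pi.single j 1) = chN i n := by
  unfold chN
  rw [Pi.add_apply, Pi.single_eq_of_ne h, add_zero]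

theorem sum_chN (i j : Fin 3) : ∑ n, conj (chN i n) * chN j n = if i = j then (27 : ℂ) else 0 := by
  split_ifs with h
  · subst h
    have h1 : ∀ n : Q3, conj (chN i n) * chN i n = 1 := fun n => by
      rw [mul_comm]
      exact mul_cj ((isChar_chN i).norm n)
    simp only [h1, Finset.sum_const, Finset.card_univ, card_Q3]
    norm_num
  · refine sum_zero_of (Pi.single j 1) zt zt_ne_one fun n => ?_
    rw [chN_add_self, chN_add_ne h]
    ring

private theorem conj_zt_ne_one : conj zt ≠ 1 := by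
  intro h
  apply zt_ne_one
  have h1 := congrArg conj h
  rwa [Complex.conj_conj, map_one] at h1

theorem sum_chN_one (i : Fin 3) : ∑ n, conj (chN i n) = 0 := by
  refine sum_zero_of (Pi.single i 1) (conj zt) conj_zt_ne_one fun n => ?_
  rw [chN_add_self, map_mul]

theorem sum_chN_one' (i : Fin 3) : ∑ n, chN i n = 0 :=
  sum_zero_of (Pi.single i 1) zt zt_ne_one fun n => chN_add_self i n

theorem avg_orth (h0 : ∑ n, conj (c n) * c' n = 0) {v : Rg Gp A}
    (h : ∀ n, act (cen n) v = c' n • v) : avg c v = 0 := by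
  rw [avg_apply]
  have h1 : ∑ n : Q3, conj (c n) • act (cen n) v = (∑ n, conj (c n) * c' n) • v := by
    rw [Finset.sum_smul]
    refine Finset.sum_congr rfl fun n _ => ?_
    rw [h, smul_smul]
  rw [h1, h0, zero_smul, smul_zero]

theorem rank_trace {T : Rg Gp A →L[ℂ] Rg Gp A} (h : ∀ v, T (T v) = T v) :
    (Module.finrank ℂ (LinearMap.range (T : Rg Gp A →ₗ[ℂ] Rg Gp A)) : ℂ) =
      LinearMap.trace ℂ (Rg Gp A) (T : Rg Gp A →ₗ[ℂ] Rg Gp A) := by
  have hp : LinearMap.IsProj (LinearMap.range (T : Rg Gp A →ₗ[ℂ] Rg Gp A))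
      (T : Rg Gp A →ₗ[ℂ] Rg Gp A) := by
    refine ⟨fun v => ⟨v, rfl⟩, ?_⟩
    rintro v ⟨w, rfl⟩
    exact h w
  exact hp.trace.symm

theorem trace_rk (a b : Rg Gp A) (T : Rg Gp A →L[ℂ] Rg Gp A) :
    LinearMap.trace ℂ (Rg Gp A) ((rk a b ∘L T : Rg Gp A →L[ℂ] Rg Gp A) : Rg Gp A →ₗ[ℂ] Rg Gp A) =
      inner ℂ b (T a) := by
  have h1 : ((rk a b ∘L T : Rg Gp A →L[ℂ] Rg Gp A) : Rg Gp A →ₗ[ℂ] Rg Gp A) =
      (((innerSL ℂ b ∘L T : Rg Gp A →L[ℂ] ℂ) : Rg Gp A →ₗ[ℂ] ℂ)).smulRight a := by
    ext v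
    rfl
  rw [h1, LinearMap.trace_smulRight]
  rfl

end EMU
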