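import Pool.Agent.Lib.EMU.F.Avg

/-!
# MP_9aab3b_gt, module F.AvgE: the isotypic parts of the explicit projection

PROOF. `chE i (cen n) = 1` (`(cen n).q = 0`), so `act (cen n) (bA i) = bA i`, `act (cen n) (eU i) = eU i`, `act (cen n) (EE i a) = zt ^ (n i).val • EE i a = chN i n • EE i a` (`act_EE`: `q = 0`).
With `avg_fix`, `avg_orth` and `sum_chN`, `sum_chN_one`, `sum_chN_one'` this gives the action of `avg` on the basic vectors. `rk_avg`: `⟪b, avg c v⟫ = ⟪avg c b, v⟫` (`avg_symm`).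
`Pm_avg_one`, `Pm_avg_chN`: `Pm = blk - ∑ rk bA bA + ∑ rk eU eU + ∑ PLn i`, `PLn i = ∑ a b, coefficient • rk (EE i a) (EE i b)`; distribute `∘L avg c` over the sums, use
`rk_avg`; `rk a 0 = 0`.
`trace_blk`: `trace (blk B ∘ avg c) = (1/27) ∑ n, conj (c n) * trace (blk B ∘ act (cen n))`; in the basis `single p 1` the trace of `blk (range inl) ∘ act (cen n)` is the number of the
`p = (inl i, g)` with `(cen n)⁻¹ * g = g`, i.e. `|I| * 729` for `n = 0` and `0` otherwise (`LinearMap.trace_eq_matrix_trace` with `EuclideanSpace.basisFun`, or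
`LinearMap.trace_eq_sum_inner`); `c 0 = 1` (`IsChar.zero`).
-/

set_option autoImplicit false

open scoped Topology ComplexConjugate

namespace EMU

variable {I J : Type} [Fintype I] [Fintype J] {c : Q3 → ℂ}

private theorem avgE_chE (i : Fin 3) (n : Q3) : chE i (cen n) = 1 := by
  change zt ^ ((0 : Q3) i).val = 1
  rw [Pi.zero_apply, ZMod.val_zero, pow_zero]

theorem act_cen_bA (i₀ : I) (i : Fin 3) (n : Q3) : act (cen n) (bA J i₀ i) = bA J i₀ i := by
  rw [act_bA, avgE_chE, one_smul]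

theorem act_cen_eU (u : Fin 3 → J) (i : Fin 3) (n : Q3) : act (cen n) (eU I u i) = eU I u i :=
  act_eU u i _

theorem act_cen_EE (u : Fin 3 → J) (i : Fin 3) (a : ZMod 3) (n : Q3) :
    act (cen n) (EE I u i a) = chN i n • EE I u i a := by
  rw [act_EE]
  change zt ^ (n i + (0 : Q3) (i + 1) * a).val • EE I u i (a + (0 : Q3) (i + 2)) =
    zt ^ (n i).val • EE I u i a
  rw [Pi.zero_apply, Pi.zero_apply, zero_mul, add_zero, add_zero]

theorem rk_avg {A : Type} [Fintype A] (hc : IsChar c) (a b : Rg Gp A) :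
    rk a b ∘L avg c = rk a (avg c b) := by
  ext1 v
  change (inner ℂ b (avg c v) : ℂ) • a = (inner ℂ (avg c b) v : ℂ) • a
  rw [avg_symm hc]

private theorem avgE_rk_zero {A : Type} [Fintype A] (a : Rg Gp A) : rk a (0 : Rg Gp A) = 0 := by
  ext1 v
  change (inner ℂ (0 : Rg Gp A) v : ℂ) • a = 0
  rw [inner_zero_left, zero_smul]

private theorem avgE_comp (hc : IsChar c) (i₀ : I) (u : Fin 3 → J) (z : Fin 3 → ℂ) :
    Pm i₀ u z ∘L avg c = blk (Set.range Sum.inl) ∘L avg c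
      - ∑ i, rk (bA J i₀ i) (avg c (bA J i₀ i)) + ∑ i, rk (eU I u i) (avg c (eU I u i))
      + ∑ i, ∑ a : ZMod 3, ∑ b : ZMod 3,
        (MM (ph (z (i + 2))) (ph (z (i + 1))) a b / (243 * NN (ph (z (i + 2))))) •
          rk (EE I u i a) (avg c (EE I u i b)) := by
  simp only [← rk_avg hc]
  apply ContinuousLinearMap.ext
  intro v
  simp only [Pm, PLn, ContinuousLinearMap.comp_apply, sub_apply, add_apply, sum_apply, smul_apply]

theorem Pm_avg_one (i₀ : I) (u : Fin 3 → J) (z : Fin 3 → ℂ) :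
    Pm i₀ u z ∘L avg (fun _ => 1) = blk (Set.range Sum.inl) ∘L avg (fun _ => 1)
      - ∑ i, rk (bA J i₀ i) (bA J i₀ i) + ∑ i, rk (eU I u i) (eU I u i) := by
  have h1 : ∀ i, avg (fun _ => 1) (bA J i₀ i) = bA J i₀ i := fun i =>
    avg_fix isChar_one fun n => by rw [act_cen_bA, one_smul]
  have h2 : ∀ i, avg (fun _ => 1) (eU I u i) = eU I u i := fun i =>
    avg_fix isChar_one fun n => by rw [act_cen_eU, one_smul]
  have h3 : ∀ i b, avg (fun _ => 1) (EE I u i b) = 0 := fun i b =>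
    avg_orth (c' := chN i) (by simpa using sum_chN_one' i) fun n => act_cen_EE u i b n
  rw [avgE_comp isChar_one]
  simp only [h1, h2, h3, avgE_rk_zero, smul_zero, Finset.sum_const_zero, add_zero]

theorem Pm_avg_chN (i₀ : I) (u : Fin 3 → J) (z : Fin 3 → ℂ) (i : Fin 3) :
    Pm i₀ u z ∘L avg (chN i) = blk (Set.range Sum.inl) ∘L avg (chN i)
      + PLn I u i (ph (z (i + 2))) (ph (z (i + 1))) := by
  have h1 : ∀ j, avg (chN i) (bA J i₀ j) = 0 := fun j =>
    avg_orth (c' := fun _ => 1) (by simpa using sum_chN_one i) fun n => by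
      rw [act_cen_bA, one_smul]
  have h2 : ∀ j, avg (chN i) (eU I u j) = 0 := fun j =>
    avg_orth (c' := fun _ => 1) (by simpa using sum_chN_one i) fun n => by
      rw [act_cen_eU, one_smul]
  have h3 : ∀ b, avg (chN i) (EE I u i b) = EE I u i b := fun b =>
    avg_fix (isChar_chN i) fun n => act_cen_EE u i b n
  have h4 : ∀ j, j ≠ i → ∀ b, avg (chN i) (EE I u j b) = 0 := fun j hj b =>
    avg_orth (c' := chN j) (by rw [sum_chN, if_neg (Ne.symm hj)]) fun n => act_cen_EE u j b n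
  rw [avgE_comp (isChar_chN i)]
  simp only [h1, h2, avgE_rk_zero, Finset.sum_const_zero, add_zero, sub_zero]
  congr 1
  rw [Finset.sum_eq_single i]
  · simp only [h3]
    rfl
  · intro j _ hj
    simp only [h4 j hj, avgE_rk_zero, smul_zero, Finset.sum_const_zero]
  · intro h
    exact absurd (Finset.mem_univ _) h

private theorem avgE_trace_act (n : Q3) :
    LinearMap.trace ℂ (Rg Gp (I ⊕ J)) ((blk (Set.range (Sum.inl : I → I ⊕ J)) ∘L actL (cen n) :
      Rg Gp (I ⊕ J) →L[ℂ] Rg Gp (I ⊕ J)) : Rg Gp (I ⊕ J) →ₗ[ℂ] Rg Gp (I ⊕ J)) =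
      if n = 0 then (Fintype.card I : ℂ) * 729 else 0 := by
  classical
  rw [LinearMap.trace_eq_sum_inner _ (EuclideanSpace.basisFun ((I ⊕ J) × Gp) ℂ)]
  have h1 : ∀ p : (I ⊕ J) × Gp, inner ℂ (EuclideanSpace.basisFun ((I ⊕ J) × Gp) ℂ p)
      (((blk (Set.range (Sum.inl : I → I ⊕ J)) ∘L actL (cen n) :
      Rg Gp (I ⊕ J) →L[ℂ] Rg Gp (I ⊕ J)) : Rg Gp (I ⊕ J) →ₗ[ℂ] Rg Gp (I ⊕ J))
        (EuclideanSpace.basisFun ((I ⊕ J) × Gp) ℂ p)) =
      if p.1 ∈ Set.range (Sum.inl : I → I ⊕ J) ∧ n = 0 then (1 : ℂ) else 0 := by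
    intro p
    rw [EuclideanSpace.basisFun_apply, EuclideanSpace.inner_single_left, map_one, one_mul]
    change (blk (Set.range (Sum.inl : I → I ⊕ J)) (act (cen n) (EuclideanSpace.single p (1 : ℂ)))) p = _
    by_cases hp : p.1 ∈ Set.range (Sum.inl : I → I ⊕ J)
    · rw [blk_apply_mem _ hp, act_apply]
      by_cases hn : n = 0
      · have h2 : (cen n)⁻¹ * p.2 = p.2 := by
          rw [hn]
          change (1 : Gp)⁻¹ * p.2 = p.2
          rw [inv_one, one_mul]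
        rw [h2, if_pos (show p.1 ∈ Set.range (Sum.inl : I → I ⊕ J) ∧ n = 0 from ⟨hp, hn⟩)]
        exact (PiLp.single_apply 2 ℂ p 1 p).trans (if_pos rfl)
      · rw [if_neg (show ¬ (p.1 ∈ Set.range (Sum.inl : I → I ⊕ J) ∧ n = 0) from fun h => hn h.2)]
        refine (PiLp.single_apply 2 ℂ p 1 _).trans (if_neg ?_)
        intro h
        apply hn
        have h2 : (cen n)⁻¹ * p.2 = p.2 := congrArg Prod.snd h
        have h3 : (cen n)⁻¹ = 1 := mul_right_cancel (h2.trans (one_mul _).symm)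
        have h4 : cen n = 1 := inv_eq_one.1 h3
        exact congrArg Gp.n h4
    · rw [blk_apply_not_mem _ hp, if_neg fun h => hp h.1]
  rw [Finset.sum_congr rfl fun p _ => h1 p]
  by_cases hn : n = 0
  · rw [if_pos hn, Fintype.sum_prod_type, Fintype.sum_sum_type]
    have h2 : ∀ i : I, (Sum.inl i : I ⊕ J) ∈ Set.range (Sum.inl : I → I ⊕ J) := fun i => ⟨i, rfl⟩
    have h3 : ∀ j : J, ¬ (Sum.inr j : I ⊕ J) ∈ Set.range (Sum.inl : I → I ⊕ J) := by
      rintro j ⟨i, hi⟩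
      cases hi
    simp only [h2, h3, hn, and_true, if_true, if_false,
      Finset.sum_const_zero, add_zero, Finset.sum_const, Finset.card_univ, Gp.card_eq,
      nsmul_eq_mul, mul_one]
    norm_num
  · rw [if_neg hn]
    refine Finset.sum_eq_zero fun p _ => if_neg fun h => hn h.2

theorem trace_blk (hc : IsChar c) :
    LinearMap.trace ℂ (Rg Gp (I ⊕ J)) ((blk (Set.range (Sum.inl : I → I ⊕ J)) ∘L avg c :
      Rg Gp (I ⊕ J) →L[ℂ] Rg Gp (I ⊕ J)) : Rg Gp (I ⊕ J) →ₗ[ℂ] Rg Gp (I ⊕ J)) =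
      (Fintype.card I : ℂ) * 27 := by
  have h1 : ((blk (Set.range (Sum.inl : I → I ⊕ J)) ∘L avg c :
      Rg Gp (I ⊕ J) →L[ℂ] Rg Gp (I ⊕ J)) : Rg Gp (I ⊕ J) →ₗ[ℂ] Rg Gp (I ⊕ J)) =
      (1 / 27 : ℂ) • ∑ n : Q3, conj (c n) • ((blk (Set.range (Sum.inl : I → I ⊕ J)) ∘L
        actL (cen n) : Rg Gp (I ⊕ J) →L[ℂ] Rg Gp (I ⊕ J)) :
          Rg Gp (I ⊕ J) →ₗ[ℂ] Rg Gp (I ⊕ J)) := by
    apply LinearMap.ext
    intro v
    rw [LinearMap.smul_apply, LinearMap.sum_apply]
    change blk (Set.range (Sum.inl : I → I ⊕ J)) (avg c v) = (1 / 27 : ℂ) • ∑ n : Q3, conj (c n) •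
      blk (Set.range (Sum.inl : I → I ⊕ J)) (actL (cen n) v)
    rw [avg, smul_apply, sum_apply, map_smul, map_sum]
    congr 1
    refine Finset.sum_congr rfl fun n _ => ?_
    rw [smul_apply, map_smul]
  rw [h1, map_smul, map_sum]
  simp only [map_smul, avgE_trace_act, smul_eq_mul, mul_ite, mul_zero, Finset.sum_ite_eq',
    Finset.mem_univ, if_true]
  rw [hc.zero, map_one]
  ring

end EMU
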