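import Pool.Agent.Lib.EMU.F.Eq

/-!
# MP_9aab3b_gt, module F.Open: the base is open, the region `UU` has compact closure in it

PROOF. `rank_cont`: on the open set `W = {x | F (ptF x) ≠ ∞}` the function `x ↦ rank (QQ F c x)` is locally constant: it is the trace (`rank_trace`, `QQ_idem`), a continuous
function on `W` (`cont_Px`, the trace is a linear function on a finite dimensional space) with natural values; so `x ↦ (rank : ℝ or ℂ)` is continuous on `W`, and the sets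
`{rank = k}` are preimages of `{k}` and of the ball of radius `1/2` around `k`.
`isOpen_OO`: `OO F` is the intersection of `{-1 < t}`, `W` and finitely many such sets. `isOpen_UU`: `ux` is continuous on `W` (`cont_ux`).
Closure and compactness. `C₀ = {p | F p ∈ (↑) '' {y : Taut | ‖y.1.2‖ ≤ 1}}` is closed, hence compact, in the compact space `OnePoint (V × ℝ^3) × [0,1]`: the set
`(↑) '' {…}` is compact (`isCompact_taut 1`, continuous image), so closed (`Thom` is Hausdorff: `OnePoint` of a locally compact Hausdorff space). `C₀` contains no point `(∞, t)`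
(`IsNull.base`). So its projection to `OnePoint (V × ℝ^3)` is compact and does not contain `∞`: it is the image of a compact set `K' ⊆ V × ℝ^3` (preimage under the open
embedding; `OnePoint.isOpenEmbedding_coe.toIsEmbedding.isCompact_preimage`-like, or `OnePoint.isOpen_iff_of_mem` for the complement), in particular bounded.
`S = {x | -(3/4) ≤ t ≤ 1, ptF x ∈ C₀}` is closed (`continuous_ptF`) and bounded (`norm_inj`), so compact (`XX I` is proper). `S' = {x ∈ S | the rank conditions}` is closed: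
`S ⊆ W`, and the rank conditions are closed in `S` (`rank_cont`; `ContinuousOn.preimage_isClosed_of_isClosed`). `UU F ⊆ S'`: `t < 1` for `x ∈ OO F` as `F (·, 1) = ∞` (`Set.projIcc_of_right_le`),
and `F (ptF x) = (y : Thom)` with `y.1.2 = ux F x`. So `closure (UU F) ⊆ S' ⊆ {x ∈ OO F | ‖ux‖ ≤ 1, -(3/4) ≤ t}` and `closure (UU F)` is a closed subset of the compact
set `S`. `frontier_UU`: `frontier U = closure U \ U` for `U` open.
-/

set_option autoImplicit false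

open scoped Topology OnePoint ComplexConjugate

namespace EMU

variable {I J : Type} [Fintype I] [Fintype J] {i₀ : I} {u : Fin 3 → J} {hu : Function.Injective u}
  {m : ℕ} {hm : m = Fintype.card I * 729 + 3}
  {F : OnePoint (Rg Gp I × EuclideanSpace ℝ (Fin 3)) × unitInterval → Thom (Rg Gp (I ⊕ J)) m}

private theorem cont_trace_F :
    Continuous fun T : Rg Gp (I ⊕ J) →L[ℂ] Rg Gp (I ⊕ J) =>
      LinearMap.trace ℂ (Rg Gp (I ⊕ J)) (T : Rg Gp (I ⊕ J) →ₗ[ℂ] Rg Gp (I ⊕ J)) :=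
  LinearMap.continuous_of_finiteDimensional (LinearMap.trace ℂ (Rg Gp (I ⊕ J)) ∘ₗ
    (ContinuousLinearMap.coeLM ℂ : (Rg Gp (I ⊕ J) →L[ℂ] Rg Gp (I ⊕ J)) →ₗ[ℂ]
      (Rg Gp (I ⊕ J) →ₗ[ℂ] Rg Gp (I ⊕ J))))

theorem IsNull.rank_cont (h : IsNull i₀ hu hm F) {c : Q3 → ℂ} (hc : IsChar c) :
    ContinuousOn (fun x : XX I => (Module.finrank ℂ
      (LinearMap.range (QQ F c x : Rg Gp (I ⊕ J) →ₗ[ℂ] Rg Gp (I ⊕ J))) : ℂ))
      {x | F (ptF x) ≠ ∞} := by
  have h1 : ContinuousOn (fun x : XX I => LinearMap.trace ℂ (Rg Gp (I ⊕ J))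
      (QQ F c x : Rg Gp (I ⊕ J) →ₗ[ℂ] Rg Gp (I ⊕ J))) {x | F (ptF x) ≠ ∞} := by
    have h2 : ContinuousOn (fun x : XX I => QQ F c x) {x | F (ptF x) ≠ ∞} :=
      (cont_Px h.cont).clm_comp continuousOn_const
    exact cont_trace_F.comp_continuousOn h2
  refine h1.congr fun x hx => ?_
  exact rank_trace (h.QQ_idem hc hx)

private theorem open_rank (h : IsNull i₀ hu hm F) {c : Q3 → ℂ} (hc : IsChar c) (k : ℕ) :
    IsOpen {x : XX I | F (ptF x) ≠ ∞ ∧ Module.finrank ℂ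
      (LinearMap.range (QQ F c x : Rg Gp (I ⊕ J) →ₗ[ℂ] Rg Gp (I ⊕ J))) = k} := by
  have h1 := (h.rank_cont hc).isOpen_inter_preimage (isOpen_fin h.cont)
    (Metric.isOpen_ball (x := (k : ℂ)) (ε := 1 / 2))
  convert h1 using 1
  ext x
  simp only [Set.mem_ofPred_eq, Set.mem_inter_iff, Set.mem_preimage, Metric.mem_ball]
  refine and_congr_right fun _ => ⟨fun h2 => ?_, fun h2 => ?_⟩
  · rw [h2, dist_self]
    norm_num
  · by_contra h3
    rw [Complex.dist_eq] at h2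
    have h4 : (1 : ℝ) ≤ ‖((Module.finrank ℂ (LinearMap.range
        (QQ F c x : Rg Gp (I ⊕ J) →ₗ[ℂ] Rg Gp (I ⊕ J))) : ℕ) : ℂ) - (k : ℂ)‖ := by
      have h5 : ((Module.finrank ℂ (LinearMap.range
        (QQ F c x : Rg Gp (I ⊕ J) →ₗ[ℂ] Rg Gp (I ⊕ J))) : ℕ) : ℂ) - (k : ℂ) =
          (((Module.finrank ℂ (LinearMap.range
        (QQ F c x : Rg Gp (I ⊕ J) →ₗ[ℂ] Rg Gp (I ⊕ J))) : ℕ) - (k : ℤ) : ℤ) : ℂ) := by
        push_cast
        rfl
      rw [h5, Complex.norm_intCast]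
      have h6 : ((Module.finrank ℂ (LinearMap.range
        (QQ F c x : Rg Gp (I ⊕ J) →ₗ[ℂ] Rg Gp (I ⊕ J))) : ℕ) - (k : ℤ) : ℤ) ≠ 0 := by
        intro h7
        exact h3 (by omega)
      exact_mod_cast Int.one_le_abs h6
    linarith

private theorem closed_rank (h : IsNull i₀ hu hm F) {c : Q3 → ℂ} (hc : IsChar c) (k : ℕ)
    {S : Set (XX I)} (hS : IsClosed S) (hSW : S ⊆ {x : XX I | F (ptF x) ≠ ∞}) :
    IsClosed (S ∩ {x : XX I | Module.finrank ℂ
      (LinearMap.range (QQ F c x : Rg Gp (I ⊕ J) →ₗ[ℂ] Rg Gp (I ⊕ J))) = k}) := by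
  have h1 := ((h.rank_cont hc).mono hSW).preimage_isClosed_of_isClosed hS
    (isClosed_singleton (x := (k : ℂ)))
  convert h1 using 1
  ext x
  simp only [Set.mem_ofPred_eq, Set.mem_inter_iff, Set.mem_preimage, Set.mem_singleton_iff,
    Nat.cast_inj]

private theorem OO_sub : OO F ⊆ {x : XX I | F (ptF x) ≠ ∞} := fun _ hx => hx.2.1

theorem IsNull.isOpen_OO (h : IsNull i₀ hu hm F) : IsOpen (OO F) := by
  have h1 : OO F = {x : XX I | -1 < x.2.2} ∩ ({x : XX I | F (ptF x) ≠ ∞ ∧ Module.finrank ℂ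
      (LinearMap.range (QQ F (fun _ => 1) x : Rg Gp (I ⊕ J) →ₗ[ℂ] Rg Gp (I ⊕ J))) =
        Fintype.card I * 27} ∩ ⋂ i, {x : XX I | F (ptF x) ≠ ∞ ∧ Module.finrank ℂ
      (LinearMap.range (QQ F (chN i) x : Rg Gp (I ⊕ J) →ₗ[ℂ] Rg Gp (I ⊕ J))) =
        Fintype.card I * 27 + 1}) := by
    ext x
    simp only [OO, Set.mem_ofPred_eq, Set.mem_inter_iff, Set.mem_iInter]
    constructor
    · rintro ⟨h1, h2, h3, h4⟩
      exact ⟨h1, ⟨h2, h3⟩, fun i => ⟨h2, h4 i⟩⟩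
    · rintro ⟨h1, ⟨h2, h3⟩, h4⟩
      exact ⟨h1, h2, h3, fun i => (h4 i).2⟩
  rw [h1]
  exact (isOpen_lt continuous_const (continuous_snd.comp continuous_snd)).inter
    ((open_rank h isChar_one _).inter
      (isOpen_iInter_of_finite fun i => open_rank h (isChar_chN i) _))

theorem IsNull.isOpen_UU (h : IsNull i₀ hu hm F) : IsOpen (UU F) := by
  have h1 : ContinuousOn (fun x : XX I => ‖ux F x‖) (OO F) :=
    ((cont_ux h.cont).mono OO_sub).norm
  have h2 := h1.isOpen_inter_preimage h.isOpen_OO (isOpen_Iio (a := (1 : ℝ)))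
  have h3 : UU F = (OO F ∩ (fun x : XX I => ‖ux F x‖) ⁻¹' Set.Iio 1) ∩
      {x : XX I | -(3 / 4) < x.2.2} := by
    ext x
    exact ⟨fun h => ⟨⟨h.1, h.2.1⟩, h.2.2⟩, fun h => ⟨h.1.1, h.1.2, h.2⟩⟩
  rw [h3]
  exact h2.inter (isOpen_lt continuous_const (continuous_snd.comp continuous_snd))

private theorem ux_coe {x : XX I} {y : Taut (Rg Gp (I ⊕ J)) m}
    (hy : (y : Thom (Rg Gp (I ⊕ J)) m) = F (ptF x)) : ux F x = y.1.2 := by
  unfold ux
  rw [← hy]
  rfl

private theorem exists_S (h : IsNull i₀ hu hm F) :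
    ∃ S : Set (XX I), IsCompact S ∧
      S ⊆ {x | F (ptF x) ≠ ∞ ∧ ‖ux F x‖ ≤ 1 ∧ -(3 / 4) ≤ x.2.2} ∧ UU F ⊆ S := by
  set K : Set (Thom (Rg Gp (I ⊕ J)) m) :=
    (fun y : Taut (Rg Gp (I ⊕ J)) m => (y : Thom (Rg Gp (I ⊕ J)) m)) '' {y | ‖y.1.2‖ ≤ 1} with hK
  have hKc : IsCompact K := (isCompact_taut 1).image OnePoint.continuous_coe
  set C : Set (OnePoint (Rg Gp I × EuclideanSpace ℝ (Fin 3)) × unitInterval) := F ⁻¹' K with hC
  have hCc : IsClosed C := hKc.isClosed.preimage h.cont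
  have hCp : IsCompact C := hCc.isCompact
  have hB : IsCompact (Prod.fst '' C) := hCp.image continuous_fst
  have hinf : ∞ ∉ Prod.fst '' C := by
    rintro ⟨⟨a, t⟩, hp, ha⟩
    have ha' : a = ∞ := ha
    subst ha'
    obtain ⟨y, -, hy⟩ := hp
    rw [h.base t] at hy
    exact OnePoint.coe_ne_infty y hy
  have hA : IsCompact ((fun z : Rg Gp I × EuclideanSpace ℝ (Fin 3) =>
      (z : OnePoint (Rg Gp I × EuclideanSpace ℝ (Fin 3)))) ⁻¹' (Prod.fst '' C)) := by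
    have h1 : IsOpen (Prod.fst '' C)ᶜ := hB.isClosed.isOpen_compl
    have h2 := ((OnePoint.isOpen_iff_of_mem (show ∞ ∈ (Prod.fst '' C)ᶜ from hinf)).1 h1).2
    rwa [Set.preimage_compl, compl_compl] at h2
  obtain ⟨R, hR⟩ := hA.isBounded.exists_norm_le
  refine ⟨{x | -(3 / 4) ≤ x.2.2 ∧ x.2.2 ≤ 1 ∧ ptF x ∈ C}, ?_, ?_, ?_⟩
  · refine Metric.isCompact_of_isClosed_isBounded ?_ ?_
    · have c1 : Continuous fun x : XX I => x.2.2 := continuous_snd.comp continuous_snd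
      exact (isClosed_le continuous_const c1).inter ((isClosed_le c1 continuous_const).inter
        (hCc.preimage continuous_ptF))
    · refine (Metric.isBounded_closedBall (x := (0 : XX I)) (r := max R 1)).subset fun x hx => ?_
      rw [mem_closedBall_zero_iff]
      have h1 : ‖((inj I x.1, x.2.1) : Rg Gp I × EuclideanSpace ℝ (Fin 3))‖ ≤ R :=
        hR _ ⟨ptF x, hx.2.2, rfl⟩
      have h2 : ‖inj I x.1‖ ≤ R := (norm_fst_le _).trans h1
      have h3 : ‖x.2.1‖ ≤ R := (norm_snd_le _).trans h1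
      have h4 : ‖x.1‖ ≤ R := by
        have h5 := norm_inj x.1
        have h6 : ‖x.1‖ ^ 2 ≤ ‖inj I x.1‖ ^ 2 := by
          rw [h5]
          nlinarith [sq_nonneg ‖x.1‖]
        exact ((pow_le_pow_iff_left₀ (norm_nonneg _) (norm_nonneg _) two_ne_zero).1 h6).trans h2
      have h5 : ‖x.2.2‖ ≤ 1 := by
        rw [Real.norm_eq_abs, abs_le]
        exact ⟨by linarith [hx.1], hx.2.1⟩
      rw [Prod.norm_def, Prod.norm_def]
      exact max_le (h4.trans (le_max_left _ _))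
        (max_le (h3.trans (le_max_left _ _)) (h5.trans (le_max_right _ _)))
  · rintro x ⟨h1, -, y, hy1, hy2⟩
    refine ⟨?_, ?_, h1⟩
    · rw [← hy2]
      exact OnePoint.coe_ne_infty y
    · rw [ux_coe hy2]
      exact hy1
  · rintro x ⟨hxO, hxu, hxt⟩
    refine ⟨hxt.le, ?_, ?_⟩
    · by_contra h1
      refine hxO.2.1 ?_
      have h2 : (ptF x).2 = 1 := Set.projIcc_of_right_le zero_le_one (not_le.1 h1).le
      have h3 : ptF x = ((ptF x).1, 1) := by rw [← h2]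
      rw [h3]
      exact h.one _
    · obtain ⟨y, hy⟩ := OnePoint.ne_infty_iff_exists.1 hxO.2.1
      refine ⟨y, ?_, hy⟩
      change ‖y.1.2‖ ≤ 1
      rw [← ux_coe hy]
      exact hxu.le

theorem IsNull.closure_UU (h : IsNull i₀ hu hm F) :
    closure (UU F) ⊆ {x | x ∈ OO F ∧ ‖ux F x‖ ≤ 1 ∧ -(3 / 4) ≤ x.2.2} := by
  obtain ⟨S, hS1, hS2, hS3⟩ := exists_S h
  have hW : S ⊆ {x : XX I | F (ptF x) ≠ ∞} := fun x hx => (hS2 hx).1
  have hT : IsClosed ((S ∩ {x : XX I | Module.finrank ℂ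
      (LinearMap.range (QQ F (fun _ => 1) x : Rg Gp (I ⊕ J) →ₗ[ℂ] Rg Gp (I ⊕ J))) =
        Fintype.card I * 27}) ∩ ⋂ i, (S ∩ {x : XX I | Module.finrank ℂ
      (LinearMap.range (QQ F (chN i) x : Rg Gp (I ⊕ J) →ₗ[ℂ] Rg Gp (I ⊕ J))) =
        Fintype.card I * 27 + 1})) :=
    (closed_rank h isChar_one _ hS1.isClosed hW).inter
      (isClosed_iInter fun i => closed_rank h (isChar_chN i) _ hS1.isClosed hW)
  have hU : UU F ⊆ ((S ∩ {x : XX I | Module.finrank ℂ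
      (LinearMap.range (QQ F (fun _ => 1) x : Rg Gp (I ⊕ J) →ₗ[ℂ] Rg Gp (I ⊕ J))) =
        Fintype.card I * 27}) ∩ ⋂ i, (S ∩ {x : XX I | Module.finrank ℂ
      (LinearMap.range (QQ F (chN i) x : Rg Gp (I ⊕ J) →ₗ[ℂ] Rg Gp (I ⊕ J))) =
        Fintype.card I * 27 + 1})) := by
    intro x hx
    refine ⟨⟨hS3 hx, hx.1.2.2.1⟩, Set.mem_iInter.2 fun i => ⟨hS3 hx, hx.1.2.2.2 i⟩⟩
  intro x hx
  obtain ⟨⟨h1, h2⟩, h3⟩ := closure_minimal hU hT hx
  obtain ⟨g1, g2, g3⟩ := hS2 h1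
  refine ⟨⟨by linarith, g1, h2, fun i => ((Set.mem_iInter.1 h3) i).2⟩, g2, g3⟩

theorem IsNull.compact_UU (h : IsNull i₀ hu hm F) : IsCompact (closure (UU F)) := by
  obtain ⟨S, hS1, -, hS3⟩ := exists_S h
  exact hS1.of_isClosed_subset isClosed_closure (closure_minimal hS3 hS1.isClosed)

theorem IsNull.frontier_UU (h : IsNull i₀ hu hm F) {x : XX I} (hx : x ∈ frontier (UU F)) :
    x ∈ OO F ∧ (‖ux F x‖ = 1 ∨ x.2.2 = -(3 / 4)) := by
  obtain ⟨h1, h2, h3⟩ := h.closure_UU (frontier_subset_closure hx)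
  refine ⟨h1, ?_⟩
  by_contra hcon
  rw [not_or] at hcon
  have h4 : x ∈ UU F := ⟨h1, lt_of_le_of_ne h2 hcon.1, lt_of_le_of_ne h3 (Ne.symm hcon.2)⟩
  exact hx.2 (by rw [h.isOpen_UU.interior_eq]; exact h4)

end EMU
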