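import Pool.Agent.Lib.EMU.F.Neg
import Pool.Agent.Lib.EMU.F.Open
import Pool.Agent.Lib.EMU.C.Main
import Pool.Agent.Lib.EMU.B.CubeInd

/-!
# MP_9aab3b_gt, module F.Core: a null homotopy gives an instance of the abstract setting

PROOF. `fam1 = IsNull.fam isChar_one` (rank `27 |I|`) and `famN i = IsNull.fam (isChar_chN i)` (rank `27 |I| + 1 = card (DD I)`, `card_DD`) from the definition of `OO F`. `chN i` is
`fun n => zt ^ (n i).val` by definition.
`openO`, `openU`, `cptU`, `clU`: `F/Open`. `invU`: `fam1.inv`, `‖ux (ρ g x)‖ = ‖act g (ux x)‖ = ‖ux x‖` (`ux_act`), the time does not change. `ρN`: `rhoX_cen`.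
`bF`: `isBun_dsum` for `QQ F 1` (`IsBun` from `fam1`: `cont`, `idem`, `rank`) and the trivial line bundle (`finrank` of the range of `id` on `ℂ` is `1`). `bL`, `bC`, `eL`, `eC`, `cube`:
`IsFam.bunL`, `bunC`, `eqL`, `eqC`, `cube` for `famN`. `cubeE`: `cbA_tau`. `NL`: `IsFam.NL`, `(27 |I| + 1) % 3 = 1`.
`eF`: `inv` as above, `eqv`: componentwise (`tauF_apply`, `fam1.eqv`), `mul`: `map_mul`.
`NF`: `PF x v = v` means `QQ F 1 x v.1 = v.1`; so `act (cen n) v.1 = v.1` (`fam1.chr`) and `chE 0 (cen n) = zt ^ 0 = 1`.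
`sec`: `cont_ux`, continuity of `x ↦ zz i₀ 0 (inj x.1)` (inner product with a fixed vector); `ux_mem`. `secE`: `ux_act`, `inj_act`, `zz_act`.
`ne`: by `frontier_UU` either `‖ux‖ = 1`, so `ux ≠ 0`, or `t = -3/4 ≤ 0`, and then `zz i₀ 0 … ≠ 0` by `mem_neg`.
-/

set_option autoImplicit false

open scoped Topology OnePoint ComplexConjugate

namespace EMU

variable {I J : Type} [Fintype I] [DecidableEq I] [Fintype J] {i₀ : I} {u : Fin 3 → J}
  {hu : Function.Injective u} {m : ℕ} {hm : m = Fintype.card I * 729 + 3}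
  {F : OnePoint (Rg Gp I × EuclideanSpace ℝ (Fin 3)) × unitInterval → Thom (Rg Gp (I ⊕ J)) m}

omit [DecidableEq I] in
theorem IsNull.fam1 (h : IsNull i₀ hu hm F) :
    IsFam (OO F) (rhoX I) (QQ F fun _ => 1) (Fintype.card I * 27) (fun _ => 1) :=
  h.fam isChar_one fun _ hx => hx.2.2.1

theorem IsNull.famN (h : IsNull i₀ hu hm F) (i : Fin 3) :
    IsFam (OO F) (rhoX I) (QQ F (chN i)) (Fintype.card (DD I)) (chN i) := by
  rw [card_DD]
  exact h.fam (isChar_chN i) fun _ hx => hx.2.2.2 i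

private theorem core_chE (n : Q3) : chE 0 (cen n) = 1 := by
  simp [chE, cen]

private theorem core_mod (I : Type) [Fintype I] : Fintype.card (DD I) % 3 = 1 := by
  rw [card_DD]
  omega

theorem IsNull.core (h : IsNull i₀ hu hm F) :
    IsCore (OO F) (UU F) (rhoX I) (tauF (I ⊕ J)) (tauA (I ⊕ J) (DD I)) (PF F) (sF i₀ F)
      (fun i x => PLm (DD I) (QQ F (chN i) x)) (fun x => PCm (DD I) (QQ F (chN 0) x)) cbA
      (Fintype.card I * 27 + 1) where
  openO := h.isOpen_OO
  openU := h.isOpen_UU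
  cptU := h.compact_UU
  clU := fun _ hx => (h.closure_UU hx).1
  invU := fun g x hx => by
    refine ⟨h.fam1.inv g x hx.1, ?_, hx.2.2⟩
    rw [h.ux_act, LinearIsometryEquiv.norm_map]
    exact hx.2.1
  ρN := rhoX_cen
  bF := by
    have h1 : IsBun (OO F) (QQ F fun _ => 1) (Fintype.card I * 27) :=
      ⟨h.fam1.cont, h.fam1.idem, h.fam1.rank⟩
    have h2 : IsBun (OO F) (fun _ => ContinuousLinearMap.id ℂ ℂ) 1 := by
      refine ⟨continuousOn_const, fun _ _ _ => rfl, fun _ _ => ?_⟩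
      have h3 : LinearMap.range ((ContinuousLinearMap.id ℂ ℂ : ℂ →L[ℂ] ℂ) : ℂ →ₗ[ℂ] ℂ) = ⊤ :=
        LinearMap.range_id
      rw [h3, finrank_top, Module.finrank_self]
    exact isBun_dsum h1 h2
  bL := fun i => (h.famN i).bunL
  bC := (h.famN 0).bunC
  eF := by
    refine ⟨h.fam1.inv, ?_, ?_⟩
    · rintro g x hx ⟨v, w⟩
      exact Prod.ext (h.fam1.eqv g x hx v) rfl
    · rintro g g' x _ v _
      rw [map_mul]
      rfl
  eL := fun i => (h.famN i).eqL
  eC := (h.famN 0).eqC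
  NF := by
    rintro x hx ⟨v, w⟩ hv n
    have h1 : QQ F (fun _ => 1) x v = v := congrArg Prod.fst hv
    have h2 := h.fam1.chr n x hx v
    rw [h1, one_smul] at h2
    rw [tauF_apply]
    refine Prod.ext h2 ?_
    show chE 0 (cen n) * w = w
    rw [core_chE, one_mul]
  NL := fun i => (h.famN i).NL (core_mod I)
  cube := (h.famN 0).cube
  cubeE := fun g v => cbA_tau g v
  sec := by
    have h1 : IsSec (OO F) (QQ F fun _ => 1) (ux F) :=
      ⟨(cont_ux h.cont).mono fun _ hx => hx.2.1, fun _ hx => h.ux_mem hx.2.1⟩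
    have h2 : IsSec (OO F) (fun _ => ContinuousLinearMap.id ℂ ℂ)
        (fun x => zz i₀ 0 (inj I x.1)) := by
      refine ⟨Continuous.continuousOn ?_, fun _ _ => rfl⟩
      exact continuous_const.inner ((inj I).continuous.comp continuous_fst)
    exact isSec_dsum h1 h2
  secE := by
    intro g x _
    refine Prod.ext (h.ux_act g x) ?_
    show zz i₀ 0 (inj I (actQ g.q x.1)) = chE 0 g * zz i₀ 0 (inj I x.1)
    rw [inj_act, zz_act]
  ne := by
    intro x hx h0
    obtain ⟨hxO, h1 | h1⟩ := h.frontier_UU hx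
    · have h2 : ux F x = 0 := congrArg Prod.fst h0
      rw [h2, norm_zero] at h1
      exact zero_ne_one h1
    · have h2 : zz i₀ 0 (inj I x.1) = 0 := congrArg Prod.snd h0
      exact ((h.mem_neg (by rw [h1]; norm_num)).1 hxO).2 0 h2

end EMU
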