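import Pool.Agent.Lib.EMU.E.Elt
import Pool.Agent.Lib.EMU.M.Fam

/-!
# MP_9aab3b_gt, part F: from a null homotopy to the abstract setting (definitions)

`F` is a based equivariant null homotopy of the explicit map `elt`. `XX I` is the space of the fixed points of the centre of `Gp` in the source
(`EuclideanSpace ℂ (I × Q3)`, embedded in `Rg Gp I` by `inj`, and `ℝ^3`), times `ℝ` (the time `x.2.2`, clamped to `[0,1]`).
At a point `x` where `F` is not `∞`, `(Px F x, ux F x)` is the value of `F`; `QQ F c x = Px F x ∘ avg c` is the projection onto the part of the subspace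
on which the centre acts by the character `c`. `OO F` is the set where `t > -1`, `F ≠ ∞` and the ranks for the characters `1`, `chN i` are the expected ones;
`UU F` the subset where `‖ux‖ < 1` and `t > -3/4`.
-/

set_option autoImplicit false

open scoped Topology OnePoint ComplexConjugate

namespace EMU

noncomputable section

section

variable {I J : Type} [Fintype I] [Fintype J]

/-- a based equivariant null homotopy of the explicit map -/
structure IsNull (i₀ : I) {u : Fin 3 → J} (hu : Function.Injective u) {m : ℕ}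
    (hm : m = Fintype.card I * 729 + 3)
    (F : OnePoint (Rg Gp I × EuclideanSpace ℝ (Fin 3)) × unitInterval → Thom (Rg Gp (I ⊕ J)) m) :
    Prop where
  cont : Continuous F
  base : ∀ t, F (∞, t) = ∞
  equi : ∀ (g : Gp) x t, F (OnePoint.map (fun x => (act g x.1, x.2)) x, t) = thomAct g (F (x, t))
  zero : ∀ x, F (x, 0) = elt i₀ hu hm x
  one : ∀ x, F (x, 1) = ∞

end

section Spaces

variable {I : Type} [Fintype I]

/-- the fixed points of the centre in the source, times the time -/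
abbrev XX (I : Type) [Fintype I] : Type :=
  EuclideanSpace ℂ (I × Q3) × EuclideanSpace ℝ (Fin 3) × ℝ

/-- inclusion of the fixed points of the centre -/
def inj (I : Type) [Fintype I] : EuclideanSpace ℂ (I × Q3) →L[ℂ] Rg Gp I :=
  LinearMap.toContinuousLinearMap
    { toFun := fun w => WithLp.toLp 2 fun p => w (p.1, p.2.q)
      map_add' := fun _ _ => rfl
      map_smul' := fun _ _ => rfl }

theorem inj_apply (w : EuclideanSpace ℂ (I × Q3)) (p : I × Gp) : inj I w p = w (p.1, p.2.q) := rfl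

/-- translation by `q` -/
def actQ (q : Q3) : EuclideanSpace ℂ (I × Q3) ≃ₗᵢ[ℂ] EuclideanSpace ℂ (I × Q3) :=
  LinearIsometryEquiv.piLpCongrLeft 2 ℂ ℂ ((Equiv.refl I).prodCongr (Equiv.addLeft q))

theorem actQ_apply (q : Q3) (w : EuclideanSpace ℂ (I × Q3)) (p : I × Q3) :
    actQ q w p = w (p.1, -q + p.2) := rfl

/-- action on `XX I` -/
def rhoX (I : Type) [Fintype I] : Gp →* (XX I ≃ₗᵢ[ℝ] XX I) where
  toFun g :=
    { toLinearEquiv := ((actQ g.q).toLinearEquiv.restrictScalars ℝ).prodCongr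
        (LinearEquiv.refl ℝ (EuclideanSpace ℝ (Fin 3) × ℝ))
      norm_map' := fun x => by
        show max ‖actQ g.q x.1‖ ‖x.2‖ = max ‖x.1‖ ‖x.2‖
        rw [LinearIsometryEquiv.norm_map] }
  map_one' := by
    ext x p
    · show x.1 (p.1, -(0 : Q3) + p.2) = x.1 p
      simp
    · rfl
    · rfl
  map_mul' g h := by
    ext x p
    · show x.1 (p.1, -(g.q + h.q) + p.2) = x.1 (p.1, -h.q + (-g.q + p.2))
      exact congrArg (fun s => x.1 (p.1, s)) (by abel)
    · rfl
    · rfl

theorem rhoX_apply (g : Gp) (x : XX I) : rhoX I g x = (actQ g.q x.1, x.2) := rfl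

/-- the point of the source of the homotopy -/
def ptF (x : XX I) : OnePoint (Rg Gp I × EuclideanSpace ℝ (Fin 3)) × unitInterval :=
  (OnePoint.some (inj I x.1, x.2.1), Set.projIcc 0 1 zero_le_one x.2.2)

end Spaces

/-- the characters of the centre -/
def chN (i : Fin 3) (n : Q3) : ℂ := zt ^ (n i).val

/-- projection onto the `c`-isotypic part for the centre -/
def avg {A : Type} [Fintype A] (c : Q3 → ℂ) : Rg Gp A →L[ℂ] Rg Gp A :=
  (1 / 27 : ℂ) • ∑ n : Q3, conj (c n) • actL (cen n)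

/-- unitary characters -/
structure IsChar (c : Q3 → ℂ) : Prop where
  add : ∀ n n', c (n + n') = c n * c n'
  norm : ∀ n, ‖c n‖ = 1

section Fun

variable {I J : Type} [Fintype I] [Fintype J] {m : ℕ}

/-- the projection -/
def Px (F : OnePoint (Rg Gp I × EuclideanSpace ℝ (Fin 3)) × unitInterval → Thom (Rg Gp (I ⊕ J)) m)
    (x : XX I) : Rg Gp (I ⊕ J) →L[ℂ] Rg Gp (I ⊕ J) :=
  (F (ptF x)).elim 0 fun y => y.1.1

/-- the vector -/
def ux (F : OnePoint (Rg Gp I × EuclideanSpace ℝ (Fin 3)) × unitInterval → Thom (Rg Gp (I ⊕ J)) m)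
    (x : XX I) : Rg Gp (I ⊕ J) :=
  (F (ptF x)).elim 0 fun y => y.1.2

/-- the `c`-isotypic part of the projection -/
def QQ (F : OnePoint (Rg Gp I × EuclideanSpace ℝ (Fin 3)) × unitInterval → Thom (Rg Gp (I ⊕ J)) m)
    (c : Q3 → ℂ) (x : XX I) : Rg Gp (I ⊕ J) →L[ℂ] Rg Gp (I ⊕ J) :=
  Px F x ∘L avg c

/-- the base of the bundles -/
def OO (F : OnePoint (Rg Gp I × EuclideanSpace ℝ (Fin 3)) × unitInterval → Thom (Rg Gp (I ⊕ J)) m) :
    Set (XX I) :=
  {x | -1 < x.2.2 ∧ F (ptF x) ≠ ∞ ∧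
    Module.finrank ℂ (LinearMap.range (QQ F (fun _ => 1) x : Rg Gp (I ⊕ J) →ₗ[ℂ] Rg Gp (I ⊕ J))) =
      Fintype.card I * 27 ∧
    ∀ i, Module.finrank ℂ
      (LinearMap.range (QQ F (chN i) x : Rg Gp (I ⊕ J) →ₗ[ℂ] Rg Gp (I ⊕ J))) =
        Fintype.card I * 27 + 1}

/-- the region where zeros are counted -/
def UU (F : OnePoint (Rg Gp I × EuclideanSpace ℝ (Fin 3)) × unitInterval → Thom (Rg Gp (I ⊕ J)) m) :
    Set (XX I) :=
  {x | x ∈ OO F ∧ ‖ux F x‖ < 1 ∧ -(3 / 4) < x.2.2}

/-- the trivial part plus a trivial line -/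
def PF (F : OnePoint (Rg Gp I × EuclideanSpace ℝ (Fin 3)) × unitInterval → Thom (Rg Gp (I ⊕ J)) m) :
    XX I → (Rg Gp (I ⊕ J) × ℂ) →L[ℂ] (Rg Gp (I ⊕ J) × ℂ) :=
  dsum (QQ F fun _ => 1) fun _ => ContinuousLinearMap.id ℂ ℂ

/-- the section: the vector and the coordinate `z_0` -/
def sF (i₀ : I)
    (F : OnePoint (Rg Gp I × EuclideanSpace ℝ (Fin 3)) × unitInterval → Thom (Rg Gp (I ⊕ J)) m)
    (x : XX I) : Rg Gp (I ⊕ J) × ℂ :=
  (ux F x, zz i₀ 0 (inj I x.1))

end Fun

theorem chE_ne_zero (g : Gp) : chE 0 g ≠ 0 := pow_ne_zero _ zt_ne_zero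

theorem chE_zero_one : chE 0 1 = 1 := by
  simp [chE, Gp.one_def]

theorem chE_zero_mul (g h : Gp) : chE 0 (g * h) = chE 0 g * chE 0 h := chE_mul 0 g h

/-- action of `Gp` on `Rg Gp A × ℂ`, by the character `chE 0` on the second factor -/
def tauF (A : Type) [Fintype A] : Gp →* ((Rg Gp A × ℂ) ≃L[ℂ] (Rg Gp A × ℂ)) where
  toFun g := (act g).toContinuousLinearEquiv.prodCongr
    (LinearEquiv.smulOfNeZero ℂ ℂ (chE 0 g) (chE_ne_zero g)).toContinuousLinearEquiv
  map_one' := by
    ext x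
    · exact congrFun (congrArg _ (act_one x.1)) _
    · show chE 0 1 * x.2 = x.2
      rw [chE_zero_one, one_mul]
  map_mul' g h := by
    ext x
    · exact congrFun (congrArg _ (act_mul g h x.1)) _
    · show chE 0 (g * h) * x.2 = chE 0 g * (chE 0 h * x.2)
      rw [chE_zero_mul, mul_assoc]

theorem tauF_apply {A : Type} [Fintype A] (g : Gp) (x : Rg Gp A × ℂ) :
    tauF A g x = (act g x.1, chE 0 g * x.2) := rfl

/-- index set of the rows: `|DD I| = 27 |I| + 1` -/
abbrev DD (I : Type) : Type := Unit ⊕ (I × Q3)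

theorem card_DD (I : Type) [Fintype I] : Fintype.card (DD I) = Fintype.card I * 27 + 1 := by
  rw [Fintype.card_sum, Fintype.card_prod, Fintype.card_unit, Fintype.card_fun]
  simp [ZMod.card, add_comm]

end

end EMU
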