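import Pool.Agent.Lib.EMU.F.Defs
import Pool.Agent.Lib.EMU.A.ThomTop

/-!
# MP_9aab3b_gt, module F.Top: continuity of the projection and of the vector

PROOF. `continuous_ptF`: `OnePoint.continuous_coe`, `continuous_projIcc`, `inj` is continuous.
`isOpen_fin`: `{∞}ᶜ` is open in the Thom space (`OnePoint.isOpen_compl_infty`-like: it is the range of the open embedding `OnePoint.isOpenEmbedding_coe`; or `T1Space`).
`cont_Px`, `cont_ux`: the open embedding `(↑) : Taut → Thom` has range `{∞}ᶜ`; on it the functions `Thom → _`, `y ↦ y.elim 0 (·.1.1)` and `y.elim 0 (·.1.2)`, are continuous: at a point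
`(y₀ : Thom)` use `OnePoint.isOpenEmbedding_coe.continuousAt_iff` (`ContinuousAt f ↑y₀ ↔ ContinuousAt (f ∘ (↑)) y₀`) and the continuity of
`Subtype.val`, `Prod.fst`, `Prod.snd`. Compose with `F ∘ ptF`.
`isTaut_Px`: `F (ptF x) = (y : Thom)` for some `y : Taut` (`OnePoint.ne_infty_iff_exists`), and `y.2`.
`norm_inj`: `‖inj w‖^2 = ∑ (i, g), ‖w (i, g.q)‖^2 = 27 ‖w‖^2` (`EuclideanSpace.norm_sq_eq`, `Gp.equivProd`).
`Px_infty`: `OnePoint.elim` at `∞`.
-/

set_option autoImplicit false

open scoped Topology OnePoint ComplexConjugate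

namespace EMU

variable {I J : Type} [Fintype I] [Fintype J] {m : ℕ}
  {F : OnePoint (Rg Gp I × EuclideanSpace ℝ (Fin 3)) × unitInterval → Thom (Rg Gp (I ⊕ J)) m}

theorem continuous_ptF : Continuous (ptF : XX I → _) := by
  have h1 : Continuous fun x : XX I => ((inj I x.1, x.2.1) : Rg Gp I × EuclideanSpace ℝ (Fin 3)) :=
    ((inj I).continuous.comp continuous_fst).prodMk (continuous_fst.comp continuous_snd)
  have h2 : Continuous fun x : XX I => Set.projIcc (0 : ℝ) 1 zero_le_one x.2.2 :=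
    continuous_projIcc.comp (continuous_snd.comp continuous_snd)
  exact (OnePoint.continuous_coe.comp h1).prodMk h2

theorem isOpen_fin (hF : Continuous F) : IsOpen {x : XX I | F (ptF x) ≠ ∞} := by
  have h1 : IsOpen ({∞}ᶜ : Set (Thom (Rg Gp (I ⊕ J)) m)) := by
    rw [OnePoint.compl_infty]
    exact OnePoint.isOpen_range_coe
  exact h1.preimage (hF.comp continuous_ptF)

private theorem top_cont {Z : Type} [TopologicalSpace Z] (hF : Continuous F)
    {f : Taut (Rg Gp (I ⊕ J)) m → Z} (hf : Continuous f) (z : Z) :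
    ContinuousOn (fun x : XX I => (F (ptF x)).elim z f) {x : XX I | F (ptF x) ≠ ∞} := by
  intro x hx
  obtain ⟨y, hy⟩ := OnePoint.ne_infty_iff_exists.1 hx
  have h1 : ContinuousAt (fun w : Thom (Rg Gp (I ⊕ J)) m => w.elim z f) (F (ptF x)) := by
    rw [← hy, OnePoint.continuousAt_coe]
    exact hf.continuousAt
  have h2 : ContinuousAt (fun x : XX I => F (ptF x)) x := (hF.comp continuous_ptF).continuousAt
  exact (ContinuousAt.comp (f := fun x : XX I => F (ptF x)) h1 h2).continuousWithinAt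

theorem cont_Px (hF : Continuous F) : ContinuousOn (Px F) {x : XX I | F (ptF x) ≠ ∞} :=
  top_cont hF (continuous_fst.comp continuous_subtype_val) 0

theorem cont_ux (hF : Continuous F) : ContinuousOn (ux F) {x : XX I | F (ptF x) ≠ ∞} :=
  top_cont hF (continuous_snd.comp continuous_subtype_val) 0

theorem isTaut_Px {x : XX I} (hx : F (ptF x) ≠ ∞) : IsTaut m (Px F x, ux F x) := by
  obtain ⟨y, hy⟩ := OnePoint.ne_infty_iff_exists.1 hx
  unfold Px ux
  rw [← hy]
  exact y.2

theorem Px_infty {x : XX I} (hx : F (ptF x) = ∞) : Px F x = 0 ∧ ux F x = 0 := by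
  unfold Px ux
  rw [hx]
  exact ⟨rfl, rfl⟩

theorem norm_inj (w : EuclideanSpace ℂ (I × Q3)) : ‖inj I w‖ ^ 2 = 27 * ‖w‖ ^ 2 := by
  rw [EuclideanSpace.norm_sq_eq, EuclideanSpace.norm_sq_eq]
  simp only [inj_apply]
  rw [Fintype.sum_prod_type, Fintype.sum_prod_type, Finset.mul_sum]
  refine Finset.sum_congr rfl fun i _ => ?_
  rw [← Gp.equivProd.symm.sum_comp, Fintype.sum_prod_type, Finset.mul_sum]
  refine Finset.sum_congr rfl fun q _ => ?_
  have h1 : ∀ n : Q3, (Gp.equivProd.symm (q, n)).q = q := fun _ => rfl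
  simp only [h1]
  rw [Finset.sum_const, Finset.card_univ, Fintype.card_fun]
  simp [ZMod.card]

end EMU
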