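import Pool.Agent.Lib.EMU.F.Avg
import Pool.Agent.Lib.EMU.F.Top

/-!
# MP_9aab3b_gt, module F.Eq: equivariance of the projection and of the vector

PROOF. `rhoX_cen`: `(cen n).q = 0`, `actQ 0 = id`. `inj_act`: `(g⁻¹ * h).q = -g.q + h.q`.
`F_act`: `ptF (rhoX g x) = (OnePoint.map (fun x => (act g x.1, x.2)) (ptF x).1, (ptF x).2)` (`OnePoint.map_some`, `inj_act`); `IsNull.equi`.
`Px_act`, `ux_act`: cases on `F (ptF x)`; `thomAct` is `OnePoint.map tautAct`, `tautAct g y = (actL g ∘ P ∘ actL g⁻¹, act g u)`; at `∞` both sides are `0`.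
`Px_cen`, `ux_cen`: `rhoX_cen` and `Px_act`, `ux_act`: `Px F x = actL (cen n) ∘ Px F x ∘ actL (cen n)⁻¹`, apply to `act (cen n) v` (`act_mul`, `act_one`).
`fam`: `inv`: if `x ∈ OO F` then `rhoX g x ∈ OO F`: the time is the same, `thomAct g y = ∞ ↔ y = ∞`, and `QQ F c (rhoX g x) = actL g ∘ QQ F c x ∘ actL g⁻¹` (`Px_act`, `avg_act`)
has the same rank (`LinearMap.range_comp`, `act g` is a linear isomorphism). `cont`: `cont_Px` (`OO F ⊆ {F ≠ ∞}`), composition is continuous in the first argument.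
`idem`, `symm`: `Px F x` is idempotent and symmetric (`isTaut_Px`) and commutes with `avg c` (`Px_cen`), `avg_avg`, `avg_symm`. `rank`: hypothesis. `eqv`: `Px_act`, `avg_act`.
`chr`: `act (cen n) (Px (avg c v)) = Px (act (cen n) (avg c v)) = c n • Px (avg c v)` (`act_cen_avg`).
`ux_mem`: `QQ F 1 x (ux F x) = ux F x`: `avg_fix` with `ux_cen`, and `Px (ux) = ux` (`isTaut_Px`).
-/

set_option autoImplicit false

open scoped Topology OnePoint ComplexConjugate

namespace EMU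

variable {I J : Type} [Fintype I] [Fintype J] {i₀ : I} {u : Fin 3 → J} {hu : Function.Injective u}
  {m : ℕ} {hm : m = Fintype.card I * 729 + 3}
  {F : OnePoint (Rg Gp I × EuclideanSpace ℝ (Fin 3)) × unitInterval → Thom (Rg Gp (I ⊕ J)) m}

theorem rhoX_cen (n : Q3) : rhoX I (cen n) = 1 := by
  ext x p
  · show x.1 (p.1, -(0 : Q3) + p.2) = x.1 p
    simp
  · rfl
  · rfl

theorem inj_act (g : Gp) (w : EuclideanSpace ℂ (I × Q3)) :
    inj I (actQ g.q w) = act g (inj I w) := by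
  ext p
  rfl

theorem IsNull.F_act (h : IsNull i₀ hu hm F) (g : Gp) (x : XX I) :
    F (ptF (rhoX I g x)) = thomAct g (F (ptF x)) := by
  have h1 : ptF (rhoX I g x) =
      (OnePoint.map (fun x => (act g x.1, x.2)) (ptF x).1, (ptF x).2) := by
    refine Prod.ext ?_ rfl
    show (OnePoint.some (inj I (actQ g.q x.1), x.2.1) :
        OnePoint (Rg Gp I × EuclideanSpace ℝ (Fin 3))) = OnePoint.some (act g (inj I x.1), x.2.1)
    rw [inj_act]
  rw [h1, h.equi]

private theorem elim_P (g : Gp) (z : Thom (Rg Gp (I ⊕ J)) m) :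
    ((thomAct g z).elim 0 fun y => y.1.1) =
      actL g ∘L (z.elim 0 fun y => y.1.1 : Rg Gp (I ⊕ J) →L[ℂ] Rg Gp (I ⊕ J)) ∘L actL g⁻¹ := by
  induction z using OnePoint.rec with
  | infty =>
    ext v p
    show (0 : ℂ) = act g (0 : Rg Gp (I ⊕ J)) p
    rw [map_zero]
    rfl
  | coe y => rfl

private theorem elim_u (g : Gp) (z : Thom (Rg Gp (I ⊕ J)) m) :
    ((thomAct g z).elim 0 fun y => y.1.2) =
      act g (z.elim 0 fun y => y.1.2 : Rg Gp (I ⊕ J)) := by
  induction z using OnePoint.rec with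
  | infty => exact (map_zero (act (I := I ⊕ J) g)).symm
  | coe y => rfl

theorem IsNull.Px_act (h : IsNull i₀ hu hm F) (g : Gp) (x : XX I) :
    Px F (rhoX I g x) = actL g ∘L Px F x ∘L actL g⁻¹ := by
  unfold Px
  rw [h.F_act]
  exact elim_P g _

theorem IsNull.ux_act (h : IsNull i₀ hu hm F) (g : Gp) (x : XX I) :
    ux F (rhoX I g x) = act g (ux F x) := by
  unfold ux
  rw [h.F_act]
  exact elim_u g _

private theorem rhoX_cen_apply (n : Q3) (x : XX I) : rhoX I (cen n) x = x := by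
  rw [rhoX_cen]
  rfl

theorem IsNull.Px_cen (h : IsNull i₀ hu hm F) (n : Q3) (x : XX I) (v : Rg Gp (I ⊕ J)) :
    Px F x (act (cen n) v) = act (cen n) (Px F x v) := by
  have h1 := h.Px_act (cen n) x
  rw [rhoX_cen_apply] at h1
  have h2 : Px F x (act (cen n) v) =
      act (cen n) (Px F x (act (cen n)⁻¹ (act (cen n) v))) := by
    conv_lhs => rw [h1]
    rfl
  rw [h2, ← act_mul, inv_mul_cancel, act_one]

theorem IsNull.ux_cen (h : IsNull i₀ hu hm F) (n : Q3) (x : XX I) :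
    act (cen n) (ux F x) = ux F x := by
  rw [← h.ux_act, rhoX_cen_apply]

private theorem avg_def {A : Type} [Fintype A] (c : Q3 → ℂ) (v : Rg Gp A) :
    avg c v = (1 / 27 : ℂ) • ∑ n : Q3, conj (c n) • act (cen n) v := by
  unfold avg
  rw [smul_apply, sum_apply]
  rfl

private theorem IsNull.Px_avg (h : IsNull i₀ hu hm F) (c : Q3 → ℂ) (x : XX I)
    (v : Rg Gp (I ⊕ J)) : Px F x (avg c v) = avg c (Px F x v) := by
  rw [avg_def, avg_def, map_smul, map_sum]
  congr 1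
  refine Finset.sum_congr rfl fun n _ => ?_
  rw [map_smul, h.Px_cen]

private theorem IsNull.QQ_act (h : IsNull i₀ hu hm F) (c : Q3 → ℂ) (g : Gp) (x : XX I) :
    QQ F c (rhoX I g x) = actL g ∘L QQ F c x ∘L actL g⁻¹ := by
  unfold QQ
  rw [h.Px_act]
  ext1 v
  show act g (Px F x (act g⁻¹ (avg c v))) = act g (Px F x (avg c (act g⁻¹ v)))
  rw [avg_act]

private theorem rank_conj {A : Type} [Fintype A] (g : Gp) (T : Rg Gp A →L[ℂ] Rg Gp A) :
    Module.finrank ℂ (LinearMap.range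
      ((actL g ∘L T ∘L actL g⁻¹ : Rg Gp A →L[ℂ] Rg Gp A) : Rg Gp A →ₗ[ℂ] Rg Gp A)) =
      Module.finrank ℂ (LinearMap.range (T : Rg Gp A →ₗ[ℂ] Rg Gp A)) := by
  have h1 : ((actL g ∘L T ∘L actL g⁻¹ : Rg Gp A →L[ℂ] Rg Gp A) : Rg Gp A →ₗ[ℂ] Rg Gp A) =
      ((act (I := A) g).toLinearEquiv : Rg Gp A →ₗ[ℂ] Rg Gp A) ∘ₗ
        ((T : Rg Gp A →ₗ[ℂ] Rg Gp A) ∘ₗ
          ((act (I := A) g⁻¹).toLinearEquiv : Rg Gp A →ₗ[ℂ] Rg Gp A)) := rfl
  rw [h1, LinearMap.range_comp, LinearMap.range_comp_of_range_eq_top _ (LinearEquiv.range _)]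
  exact LinearEquiv.finrank_map_eq (act (I := A) g).toLinearEquiv _

theorem IsNull.QQ_idem (h : IsNull i₀ hu hm F) {c : Q3 → ℂ} (hc : IsChar c) {x : XX I}
    (hx : F (ptF x) ≠ ∞) (v : Rg Gp (I ⊕ J)) : QQ F c x (QQ F c x v) = QQ F c x v := by
  show Px F x (avg c (Px F x (avg c v))) = Px F x (avg c v)
  rw [← h.Px_avg, avg_avg hc, (isTaut_Px hx).idem]

theorem IsNull.fam (h : IsNull i₀ hu hm F) {c : Q3 → ℂ} (hc : IsChar c) {d : ℕ}
    (hd : ∀ x ∈ OO F, Module.finrank ℂ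
      (LinearMap.range (QQ F c x : Rg Gp (I ⊕ J) →ₗ[ℂ] Rg Gp (I ⊕ J))) = d) :
    IsFam (OO F) (rhoX I) (QQ F c) d c := by
  refine ⟨?_, ?_, ?_, ?_, hd, ?_, ?_⟩
  · rintro g x ⟨h1, h2, h3, h4⟩
    refine ⟨h1, ?_, ?_, fun i => ?_⟩
    · rw [h.F_act]
      intro h5
      apply h2
      generalize F (ptF x) = z at h5 ⊢
      induction z using OnePoint.rec with
      | infty => rfl
      | coe y => exact absurd h5 (OnePoint.coe_ne_infty _)
    · rw [h.QQ_act, rank_conj]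
      exact h3
    · rw [h.QQ_act, rank_conj]
      exact h4 i
  · exact ((cont_Px h.cont).mono fun x hx => hx.2.1).clm_comp continuousOn_const
  · intro x hx v
    exact h.QQ_idem hc hx.2.1 v
  · intro x hx v w
    show inner ℂ (Px F x (avg c v)) w = inner ℂ v (Px F x (avg c w))
    rw [(isTaut_Px hx.2.1).symm, avg_symm hc, h.Px_avg]
  · intro g x _ v
    rw [h.QQ_act]
    show act g (QQ F c x (act g⁻¹ (act g v))) = act g (QQ F c x v)
    rw [← act_mul, inv_mul_cancel, act_one]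
  · intro n x _ v
    show act (cen n) (Px F x (avg c v)) = c n • Px F x (avg c v)
    rw [← h.Px_cen, act_cen_avg hc, map_smul]

theorem IsNull.ux_mem (h : IsNull i₀ hu hm F) {x : XX I} (hx : F (ptF x) ≠ ∞) :
    QQ F (fun _ => 1) x (ux F x) = ux F x := by
  show Px F x (avg (fun _ => 1) (ux F x)) = ux F x
  rw [avg_fix isChar_one fun n => by rw [h.ux_cen, one_smul]]
  exact (isTaut_Px hx).mem

end EMU
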