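import Pool.Agent.Lib.EMU.F.AvgE
import Pool.Agent.Lib.EMU.F.Eq

/-!
# MP_9aab3b_gt, module F.Neg: the homotopy at times `≤ 0`

PROOF. `neg`: `Set.projIcc 0 1 _ t = 0` for `t ≤ 0` (`Set.projIcc_of_le_left`), `IsNull.zero`. `elt (some p) = eltP p`, which is `∞` iff some `zz i = 0` and otherwise
`some ⟨(Pm, um), _⟩`: this gives `neg_ne`, `Px_neg`, `ux_neg`.
`rank_neg_one`, `rank_neg_chN`: `QQ F c x` is idempotent (`QQ_idem`), so its rank is its trace (`rank_trace`); `Px_neg`, `Pm_avg_one`, `Pm_avg_chN`; traces: `trace_blk`, `trace_rk` with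
`T = id` and `⟪bA i, bA i⟫ = ⟪eU i, eU i⟫ = 1` (`inner_bA`, `inner_eU`): `27 |I| - 3 + 3`; and `PLn i = rk w w` with `‖w‖ = 1` (`exists_line`; `‖ph z‖ = 1` for `z ≠ 0`): trace `1`.
Then `Nat.cast_injective`.
`mem_neg`: `OO F` is defined by `-1 < t`, `F ≠ ∞` (`neg_ne`) and the ranks.
-/

set_option autoImplicit false

open scoped Topology OnePoint ComplexConjugate

namespace EMU

variable {I J : Type} [Fintype I] [Fintype J] {i₀ : I} {u : Fin 3 → J} {hu : Function.Injective u}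
  {m : ℕ} {hm : m = Fintype.card I * 729 + 3}
  {F : OnePoint (Rg Gp I × EuclideanSpace ℝ (Fin 3)) × unitInterval → Thom (Rg Gp (I ⊕ J)) m}

private theorem trace_rk' {A : Type} [Fintype A] (a b : Rg Gp A) :
    LinearMap.trace ℂ (Rg Gp A) ((rk a b : Rg Gp A →L[ℂ] Rg Gp A) : Rg Gp A →ₗ[ℂ] Rg Gp A) =
      inner ℂ b a :=
  trace_rk a b (ContinuousLinearMap.id ℂ (Rg Gp A))

private theorem elt_pos {v : Rg Gp I} {t : EuclideanSpace ℝ (Fin 3)} (hz : ∀ i, zz i₀ i v ≠ 0) :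
    elt i₀ hu hm (OnePoint.some (v, t)) =
      OnePoint.some (X := Taut (Rg Gp (I ⊕ J)) m)
        ⟨(Pm i₀ u (fun i => zz i₀ i v), um i₀ u v t), isTaut_elt i₀ hu v t hz hm⟩ := by
  show eltP i₀ hu hm (v, t) = _
  unfold eltP
  exact dif_pos hz

private theorem elt_neg {v : Rg Gp I} {t : EuclideanSpace ℝ (Fin 3)} (hz : ¬ ∀ i, zz i₀ i v ≠ 0) :
    elt i₀ hu hm (OnePoint.some (v, t)) = ∞ := by
  show eltP i₀ hu hm (v, t) = _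
  unfold eltP
  exact dif_neg hz

theorem norm_ph {z : ℂ} (hz : z ≠ 0) : ‖ph z‖ = 1 := by
  have h : ‖z‖ ≠ 0 := norm_ne_zero_iff.mpr hz
  unfold ph
  rw [norm_div, Complex.norm_real, norm_norm, div_self h]

theorem IsNull.neg (h : IsNull i₀ hu hm F) {x : XX I} (hx : x.2.2 ≤ 0) :
    F (ptF x) = elt i₀ hu hm (OnePoint.some (inj I x.1, x.2.1)) := by
  have h1 : ptF x = (OnePoint.some (inj I x.1, x.2.1), (0 : unitInterval)) := by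
    unfold ptF
    rw [Set.projIcc_of_le_left zero_le_one hx]
    rfl
  rw [h1, h.zero]

theorem IsNull.neg_ne (h : IsNull i₀ hu hm F) {x : XX I} (hx : x.2.2 ≤ 0) :
    F (ptF x) ≠ ∞ ↔ ∀ i, zz i₀ i (inj I x.1) ≠ 0 := by
  rw [h.neg hx]
  by_cases hz : ∀ i, zz i₀ i (inj I x.1) ≠ 0
  · rw [elt_pos hz]
    exact ⟨fun _ => hz, fun _ => OnePoint.coe_ne_infty _⟩
  · rw [elt_neg hz]
    exact ⟨fun h => absurd rfl h, fun h => absurd h hz⟩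

theorem IsNull.Px_neg (h : IsNull i₀ hu hm F) {x : XX I} (hx : x.2.2 ≤ 0)
    (hz : ∀ i, zz i₀ i (inj I x.1) ≠ 0) : Px F x = Pm i₀ u (fun i => zz i₀ i (inj I x.1)) := by
  unfold Px
  rw [h.neg hx, elt_pos hz]
  rfl

theorem IsNull.ux_neg (h : IsNull i₀ hu hm F) {x : XX I} (hx : x.2.2 ≤ 0)
    (hz : ∀ i, zz i₀ i (inj I x.1) ≠ 0) : ux F x = um i₀ u (inj I x.1) x.2.1 := by
  unfold ux
  rw [h.neg hx, elt_pos hz]
  rfl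

theorem IsNull.rank_neg_one (h : IsNull i₀ hu hm F) {x : XX I} (hx : x.2.2 ≤ 0)
    (hz : ∀ i, zz i₀ i (inj I x.1) ≠ 0) : Module.finrank ℂ
      (LinearMap.range (QQ F (fun _ => 1) x : Rg Gp (I ⊕ J) →ₗ[ℂ] Rg Gp (I ⊕ J))) =
        Fintype.card I * 27 := by
  have h1 := rank_trace (h.QQ_idem isChar_one ((h.neg_ne hx).mpr hz))
  have h2 : QQ F (fun _ => 1) x = blk (Set.range Sum.inl) ∘L avg (fun _ => 1)
      - ∑ i, rk (bA J i₀ i) (bA J i₀ i) + ∑ i, rk (eU I u i) (eU I u i) := by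
    unfold QQ
    rw [h.Px_neg hx hz, Pm_avg_one]
  have h3 : ((QQ F (fun _ => 1) x : Rg Gp (I ⊕ J) →L[ℂ] Rg Gp (I ⊕ J)) :
      Rg Gp (I ⊕ J) →ₗ[ℂ] Rg Gp (I ⊕ J)) =
      ((blk (Set.range (Sum.inl : I → I ⊕ J)) ∘L avg (fun _ => 1) :
        Rg Gp (I ⊕ J) →L[ℂ] Rg Gp (I ⊕ J)) : Rg Gp (I ⊕ J) →ₗ[ℂ] Rg Gp (I ⊕ J))
      - ∑ i, ((rk (bA J i₀ i) (bA J i₀ i) : Rg Gp (I ⊕ J) →L[ℂ] Rg Gp (I ⊕ J)) :
        Rg Gp (I ⊕ J) →ₗ[ℂ] Rg Gp (I ⊕ J))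
      + ∑ i, ((rk (eU I u i) (eU I u i) : Rg Gp (I ⊕ J) →L[ℂ] Rg Gp (I ⊕ J)) :
        Rg Gp (I ⊕ J) →ₗ[ℂ] Rg Gp (I ⊕ J)) := by
    rw [h2, ← ContinuousLinearMap.toLinearMap_sum, ← ContinuousLinearMap.toLinearMap_sum,
      ← ContinuousLinearMap.toLinearMap_sub, ← ContinuousLinearMap.toLinearMap_add]
  have h4 : ((Module.finrank ℂ (LinearMap.range (QQ F (fun _ => 1) x :
      Rg Gp (I ⊕ J) →ₗ[ℂ] Rg Gp (I ⊕ J))) : ℕ) : ℂ) = ((Fintype.card I * 27 : ℕ) : ℂ) := by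
    rw [h1, h3, map_add, map_sub, map_sum, map_sum, trace_blk isChar_one]
    have h5 : ∀ i, LinearMap.trace ℂ (Rg Gp (I ⊕ J)) ((rk (bA J i₀ i) (bA J i₀ i) :
        Rg Gp (I ⊕ J) →L[ℂ] Rg Gp (I ⊕ J)) : Rg Gp (I ⊕ J) →ₗ[ℂ] Rg Gp (I ⊕ J)) = 1 := by
      intro i
      rw [trace_rk', inner_bA, if_pos rfl]
    have h6 : ∀ i, LinearMap.trace ℂ (Rg Gp (I ⊕ J)) ((rk (eU I u i) (eU I u i) :
        Rg Gp (I ⊕ J) →L[ℂ] Rg Gp (I ⊕ J)) : Rg Gp (I ⊕ J) →ₗ[ℂ] Rg Gp (I ⊕ J)) = 1 := by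
      intro i
      rw [trace_rk', inner_eU hu, if_pos rfl]
    simp only [h5, h6]
    push_cast
    ring
  exact_mod_cast h4

theorem IsNull.rank_neg_chN (h : IsNull i₀ hu hm F) {x : XX I} (hx : x.2.2 ≤ 0)
    (hz : ∀ i, zz i₀ i (inj I x.1) ≠ 0) (i : Fin 3) : Module.finrank ℂ
      (LinearMap.range (QQ F (chN i) x : Rg Gp (I ⊕ J) →ₗ[ℂ] Rg Gp (I ⊕ J))) =
        Fintype.card I * 27 + 1 := by
  have h1 := rank_trace (h.QQ_idem (isChar_chN i) ((h.neg_ne hx).mpr hz))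
  obtain ⟨w, c, -, hw1, hw⟩ := exists_line (I := I) hu i (norm_ph (hz (i + 2)))
    (norm_ph (hz (i + 1)))
  have h2 : QQ F (chN i) x = blk (Set.range Sum.inl) ∘L avg (chN i) + rk w w := by
    unfold QQ
    rw [h.Px_neg hx hz, Pm_avg_chN, hw]
  have h3 : ((QQ F (chN i) x : Rg Gp (I ⊕ J) →L[ℂ] Rg Gp (I ⊕ J)) :
      Rg Gp (I ⊕ J) →ₗ[ℂ] Rg Gp (I ⊕ J)) =
      ((blk (Set.range (Sum.inl : I → I ⊕ J)) ∘L avg (chN i) :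
        Rg Gp (I ⊕ J) →L[ℂ] Rg Gp (I ⊕ J)) : Rg Gp (I ⊕ J) →ₗ[ℂ] Rg Gp (I ⊕ J))
      + ((rk w w : Rg Gp (I ⊕ J) →L[ℂ] Rg Gp (I ⊕ J)) :
        Rg Gp (I ⊕ J) →ₗ[ℂ] Rg Gp (I ⊕ J)) := by
    rw [h2, ← ContinuousLinearMap.toLinearMap_add]
  have h4 : ((Module.finrank ℂ (LinearMap.range (QQ F (chN i) x :
      Rg Gp (I ⊕ J) →ₗ[ℂ] Rg Gp (I ⊕ J))) : ℕ) : ℂ) = ((Fintype.card I * 27 + 1 : ℕ) : ℂ) := by
    rw [h1, h3, map_add, trace_blk (isChar_chN i), trace_rk', inner_self_eq_norm_sq_to_K, hw1]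
    push_cast
    ring
  exact_mod_cast h4

theorem IsNull.mem_neg (h : IsNull i₀ hu hm F) {x : XX I} (hx : x.2.2 ≤ 0) :
    x ∈ OO F ↔ -1 < x.2.2 ∧ ∀ i, zz i₀ i (inj I x.1) ≠ 0 := by
  constructor
  · rintro ⟨h1, h2, -⟩
    exact ⟨h1, (h.neg_ne hx).mp h2⟩
  · rintro ⟨h1, hz⟩
    exact ⟨h1, (h.neg_ne hx).mpr hz, h.rank_neg_one hx hz, h.rank_neg_chN hx hz⟩

end EMU
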